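import Pool.Agent.Q164.CosD
import Mathlib.LinearAlgebra.Dimension.Constructions

/-!
A non-monotone hyperbolicity preserver of infinite order with range of dimension at least three:
`T = (x D - D^2) ∘ cos D`.
-/

namespace Pool.Agent.Results.MP_6bb0fd_an.CosineHermite

open Polynomial Finset Pool.Agent.Q164

/-- All (complex) zeros of the real polynomial `p` are real; the zero polynomial is included. -/
def IsHyperbolic (p : ℝ[X]) : Prop := p = 0 ∨ ∀ z : ℂ, aeval z p = 0 → z.im = 0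

/-- `Q` is the coefficient sequence of `T = ∑ Q_k D^k`. -/
def Represents (Q : ℕ → ℝ[X]) (T : ℝ[X] →ₗ[ℝ] ℝ[X]) : Prop :=
  ∀ p : ℝ[X], T p = ∑ k ∈ range (p.natDegree + 1), Q k * derivative^[k] p

/-- The coefficients of `(x D - D^2) ∘ cos D`. -/
noncomputable def Qc (k : ℕ) : ℝ[X] :=
  if k = 0 then 0 else if Even k then - C (cosCoeff (k - 2)) else C (cosCoeff (k - 1)) * X

noncomputable def T₀ : ℝ[X] →ₗ[ℝ] ℝ[X] := diffOp Qc

theorem cosD_lt (p : ℝ[X]) {N : ℕ} (hN : p.natDegree < N) :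
    cosD p = ∑ k ∈ range N, C (cosCoeff k) * derivative^[k] p := diffOp_apply_of_lt _ _ hN

theorem derivative_cosD (p : ℝ[X]) {N : ℕ} (hN : p.natDegree < N) :
    derivative (cosD p) = ∑ k ∈ range N, C (cosCoeff k) * derivative^[k + 1] p := by
  rw [cosD_lt p hN, derivative_sum]
  apply sum_congr rfl
  intro k _
  rw [derivative_C_mul, Function.iterate_succ_apply']

theorem derivative2_cosD (p : ℝ[X]) {N : ℕ} (hN : p.natDegree < N) :
    derivative (derivative (cosD p)) = ∑ k ∈ range N, C (cosCoeff k) * derivative^[k + 2] p := by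
  rw [derivative_cosD p hN, derivative_sum]
  apply sum_congr rfl
  intro k _
  rw [derivative_C_mul, ← Function.iterate_succ_apply' derivative]

theorem Qc_eq (k : ℕ) : Qc (k + 2) = C (cosCoeff (k + 1)) * X - C (cosCoeff k) := by
  rcases Nat.even_or_odd' k with ⟨j, rfl | rfl⟩
  · have h1 : Even (2 * j + 2) := ⟨j + 1, by ring⟩
    rw [Qc, if_neg (by omega), if_pos h1, cosCoeff_odd]
    simp
  · have h1 : ¬ Even (2 * j + 1 + 2) := by
      rw [Nat.not_even_iff_odd]
      exact ⟨j + 1, by ring⟩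
    rw [Qc, if_neg (by omega), if_neg h1, cosCoeff_odd]
    simp

theorem T₀_eq (p : ℝ[X]) :
    T₀ p = X * derivative (cosD p) - derivative (derivative (cosD p)) := by
  have hN : p.natDegree < p.natDegree + 1 := Nat.lt_succ_self _
  set n := p.natDegree with hn
  have h1 : T₀ p = ∑ k ∈ range (n + 3), Qc k * derivative^[k] p :=
    diffOp_apply_of_lt _ _ (by omega)
  have h2 : derivative (cosD p) = ∑ k ∈ range (n + 2), C (cosCoeff k) * derivative^[k + 1] p :=
    derivative_cosD p (by omega)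
  have h3 : derivative (derivative (cosD p)) =
      ∑ k ∈ range (n + 1), C (cosCoeff k) * derivative^[k + 2] p :=
    derivative2_cosD p (by omega)
  rw [h1, h3, h2, sum_range_succ', sum_range_succ', sum_range_succ' (n := n + 1), mul_add,
    mul_sum, add_sub_right_comm, ← sum_sub_distrib]
  have hQ0 : Qc 0 = 0 := by simp [Qc]
  have hQ1 : Qc (0 + 1) = C (cosCoeff 0) * X := by
    rw [Qc]; simp
  rw [hQ0, hQ1, zero_mul, add_zero]
  congr 1
  · apply sum_congr rfl
    intro k _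
    rw [Qc_eq]
    ring_nf
  · ring_nf

theorem T₀_hyperbolic (p : ℝ[X]) (hp : IsHyperbolic p) : IsHyperbolic (T₀ p) := by
  rw [T₀_eq]
  have h : Hyperbolic p := hp
  exact (h.cosD.deriv).X_mul_sub

theorem cosCoeff_zero : cosCoeff 0 = 1 := by simp [cosCoeff]
theorem cosCoeff_one : cosCoeff 1 = 0 := by simp [cosCoeff]
theorem cosCoeff_two : cosCoeff 2 = -1 / 2 := by
  have := cosCoeff_two_mul 1
  simpa using this
theorem cosCoeff_three : cosCoeff 3 = 0 := cosCoeff_odd 1

theorem cosD_X : cosD (X : ℝ[X]) = X := by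
  rw [cosD_lt X (N := 2) (by rw [natDegree_X]; omega)]
  simp [sum_range_succ, cosCoeff_zero, cosCoeff_one]

theorem cosD_X2 : cosD (X ^ 2 : ℝ[X]) = X ^ 2 - 1 := by
  rw [cosD_lt (X ^ 2) (N := 3) (by rw [natDegree_X_pow]; omega)]
  simp [sum_range_succ, cosCoeff_zero, cosCoeff_one, cosCoeff_two]
  rw [← C_1, ← C_add, ← C_mul, sub_eq_add_neg, ← C_neg]
  norm_num

theorem cosD_X3 : cosD (X ^ 3 : ℝ[X]) = X ^ 3 - 3 * X := by
  rw [cosD_lt (X ^ 3) (N := 4) (by rw [natDegree_X_pow]; omega)]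
  simp [sum_range_succ, cosCoeff_zero, cosCoeff_one, cosCoeff_two, cosCoeff_three]
  have h2 : (C 2 : ℝ[X]) = 2 := map_ofNat C 2
  have h3 : (C (-1 / 2) : ℝ[X]) * 2 = -1 := by
    rw [← h2, ← C_mul, ← C_1, ← C_neg]
    norm_num
  rw [h2]
  linear_combination (3 * X) * h3

theorem T₀_X : T₀ X = X := by
  rw [T₀_eq, cosD_X]; simp

theorem T₀_X2 : T₀ (X ^ 2) = 2 * X ^ 2 - 2 := by
  rw [T₀_eq, cosD_X2]; simp; ring

theorem T₀_X3 : T₀ (X ^ 3) = 3 * X ^ 3 - 9 * X := by
  have h2 : (C 2 : ℝ[X]) = 2 := map_ofNat C 2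
  rw [T₀_eq, cosD_X3]; simp [h2]; ring

theorem result : ∃ (T : ℝ[X] →ₗ[ℝ] ℝ[X]) (Q : ℕ → ℝ[X]),
    Represents Q T ∧
    (∀ n, ∃ k, n ≤ k ∧ Q k ≠ 0) ∧
    (∀ p, IsHyperbolic p → IsHyperbolic (T p)) ∧
    3 ≤ Module.rank ℝ (LinearMap.range T) ∧
    ¬ (∀ k, Q k ≠ 0 → (Q k).degree ≤ (Q (k + 1)).degree) := by
  refine ⟨T₀, Qc, fun p => rfl, ?_, T₀_hyperbolic, ?_, ?_⟩
  · intro n
    refine ⟨2 * n + 1, by omega, ?_⟩
    have h1 : ¬ Even (2 * n + 1) := by
      rw [Nat.not_even_iff_odd]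
      exact ⟨n, rfl⟩
    rw [Qc, if_neg (by omega), if_neg h1, Nat.add_sub_cancel, cosCoeff_two_mul]
    apply mul_ne_zero _ X_ne_zero
    rw [Ne, C_eq_zero]
    apply div_ne_zero
    · exact pow_ne_zero _ (by norm_num)
    · exact_mod_cast Nat.factorial_ne_zero _
  · let v : Fin 3 → LinearMap.range T₀ :=
      ![⟨X, X, T₀_X⟩, ⟨2 * X ^ 2 - 2, X ^ 2, T₀_X2⟩, ⟨3 * X ^ 3 - 9 * X, X ^ 3, T₀_X3⟩]
    have hv : LinearIndependent ℝ v := by
      rw [Fintype.linearIndependent_iff]
      intro g hg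
      have hg' := congrArg (Subtype.val) hg
      rw [Fin.sum_univ_three] at hg'
      simp only [v, Matrix.cons_val_zero, Matrix.cons_val_one, Matrix.cons_val_two,
        Submodule.coe_add, Submodule.coe_smul, Submodule.coe_zero] at hg'
      have e3 := congrArg (fun p : ℝ[X] => p.eval 0) hg'
      have e1 := congrArg (fun p : ℝ[X] => p.eval 1) hg'
      have e2 := congrArg (fun p : ℝ[X] => p.eval 2) hg'
      simp at e1 e2 e3
      intro i
      fin_cases i
      · simp; linarith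
      · simp; linarith
      · simp; linarith
    have := hv.cardinal_le_rank
    simpa using this
  · intro h
    have h1 : Qc 1 = X := by
      simp [Qc, cosCoeff_zero]
    have h2 : Qc 2 = - 1 := by
      simp [Qc, cosCoeff_zero]
    have := h 1 (by rw [h1]; exact X_ne_zero)
    rw [h1, show 1 + 1 = 2 from rfl, h2, degree_X, degree_neg, degree_one] at this
    exact absurd this (by decide)

end Pool.Agent.Results.MP_6bb0fd_an.CosineHermite
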